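import Pool.Agent.V5helper41.PD.Stm

/-!
# Job CC: complex conjugation on `Qb`
-/

set_option autoImplicit false

namespace V5helper58.PD

open IntermediateField Polynomial
open Pool.Agent.H58P (Qb)
open Pool.Agent.W237.RK
open V5helper41.PD

theorem t_CC : S_CC := by
  classical
  have halg : Algebra.IsAlgebraic ℚ Qb := AlgebraicClosure.isAlgebraic ℚ
  let φ : Qb →+* ℂ := (IsAlgClosed.lift (R := ℚ) (S := Qb) (M := ℂ)).toRingHom
  letI : Algebra Qb ℂ := φ.toAlgebra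
  haveI : IsScalarTower ℚ Qb ℂ := IsScalarTower.of_algebraMap_eq (fun x => by
    change _ = φ (algebraMap ℚ Qb x)
    exact (AlgHom.commutes (IsAlgClosed.lift (R := ℚ) (S := Qb) (M := ℂ)) x).symm)
  let χ : ℂ ≃ₐ[ℚ] ℂ := Complex.conjAe.restrictScalars ℚ
  have hcl : IsAlgClosure ℚ Qb := ⟨inferInstance, halg⟩
  have hnor : Normal ℚ Qb := IsAlgClosure.normal ℚ Qb
  refine ⟨χ.restrictNormal Qb, ?_⟩
  intro ζ n hn hζ
  have hinj : Function.Injective (algebraMap Qb ℂ) := (algebraMap Qb ℂ).injective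
  apply hinj
  rw [AlgEquiv.restrictNormal_commutes, map_inv₀]
  have h1 : (algebraMap Qb ℂ ζ) ^ n = 1 := by rw [← map_pow, hζ, map_one]
  have h2 : ‖algebraMap Qb ℂ ζ‖ = 1 := by
    have : ‖algebraMap Qb ℂ ζ‖ ^ n = 1 := by rw [← norm_pow, h1, norm_one]
    exact (pow_eq_one_iff_of_nonneg (norm_nonneg _) hn.ne').1 this
  change (starRingEnd ℂ) (algebraMap Qb ℂ ζ) = _
  exact (Complex.inv_eq_conj h2).symm

end V5helper58.PD
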