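import Pool.Agent.V5helper41.PD.Stm

/-!
# Job NAB: `a^{1/p}` is in no cyclotomic field, for `p` odd
-/

set_option autoImplicit false

namespace V5helper58.PD

open IntermediateField Polynomial
open Pool.Agent.H58P (Qb)
open Pool.Agent.W237.RK
open V5helper41.PD

lemma comm_Kmu (σ τ : Aut) {x : Qb} (hx : x ∈ Kmu) : σ (τ x) = τ (σ x) := by
  unfold Kmu at hx
  induction hx using IntermediateField.adjoin_induction with
  | mem y hy =>
    obtain ⟨n, hn, hy⟩ := hy
    have hk : 0 < orderOf y := orderOf_pos_iff.2 (isOfFinOrder_iff_pow_eq_one.2 ⟨n, hn, hy⟩)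
    have hprim : IsPrimitiveRoot y (orderOf y) := IsPrimitiveRoot.orderOf y
    haveI : NeZero (orderOf y) := ⟨hk.ne'⟩
    have h1 : (σ y) ^ (orderOf y) = 1 := by rw [← map_pow, pow_orderOf_eq_one, map_one]
    have h2 : (τ y) ^ (orderOf y) = 1 := by rw [← map_pow, pow_orderOf_eq_one, map_one]
    obtain ⟨i, -, hi⟩ := hprim.eq_pow_of_pow_eq_one h1
    obtain ⟨j, -, hj⟩ := hprim.eq_pow_of_pow_eq_one h2
    rw [← hi, ← hj, map_pow, map_pow, ← hi, ← hj, ← pow_mul, ← pow_mul, mul_comm]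
  | algebraMap r => simp
  | add x y _ _ hx hy => rw [map_add, map_add, map_add, map_add, hx, hy]
  | inv x _ hx => rw [map_inv₀, map_inv₀, map_inv₀, map_inv₀, hx]
  | mul x y _ _ hx hy => rw [map_mul, map_mul, map_mul, map_mul, hx, hy]

lemma mem_Kmu_of_pow {y : Qb} {n : ℕ} (hn : 0 < n) (h : y ^ n = 1) : y ∈ Kmu :=
  IntermediateField.subset_adjoin _ _ ⟨n, hn, h⟩

theorem t_NAB (h1 : S_GAL) (h2 : S_CC) : S_NAB := by
  intro a p ρ ha hsq hp hp2 hρ hmem
  obtain ⟨c, hc⟩ := h2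
  have ha0 : (a : Qb) ≠ 0 := by
    have : a ≠ 0 := by omega
    exact_mod_cast this
  have hρ0 : ρ ≠ 0 := by
    rintro rfl
    rw [zero_pow hp.ne_zero] at hρ
    exact ha0 hρ.symm
  have hodd : p % 2 = 1 := by
    rcases hp.eq_two_or_odd with h | h
    · exact absurd h hp2
    · exact h
  -- the modified root
  obtain ⟨m, hm⟩ : ∃ m : ℕ, 2 * m = p + 1 := ⟨(p + 1) / 2, by omega⟩
  set η : Qb := c ρ / ρ with hη
  have hηp : η ^ p = 1 := by
    rw [hη, div_pow, ← map_pow, hρ, map_natCast, div_self ha0]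
  have hη0 : η ≠ 0 := by
    intro h
    rw [h, zero_pow hp.ne_zero] at hηp
    exact zero_ne_one hηp
  have hcρ : c ρ = η * ρ := by rw [hη]; field_simp
  set ρ' : Qb := η ^ m * ρ with hρ'
  have hρ'p : ρ' ^ p = (a : Qb) := by
    rw [hρ', mul_pow, ← pow_mul, mul_comm m p, pow_mul, hηp, one_pow, one_mul, hρ]
  have hρ'0 : ρ' ≠ 0 := mul_ne_zero (pow_ne_zero _ hη0) hρ0
  have hρ'mem : ρ' ∈ Kmu := mul_mem (pow_mem (mem_Kmu_of_pow hp.pos hηp) _) hmem
  have hcρ' : c ρ' = ρ' := by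
    rw [hρ', map_mul, map_pow, hc η p hp.pos hηp, hcρ, inv_pow]
    have e : η ^ m * η ^ m = η := by
      rw [← pow_add, ← two_mul, hm, pow_succ, hηp, one_mul]
    have hm0 : η ^ m ≠ 0 := pow_ne_zero _ hη0
    rw [← mul_assoc]
    congr 1
    rw [inv_mul_eq_iff_eq_mul₀ hm0]
    exact e.symm
  -- some `g` moves `ρ'`
  obtain ⟨g, hg⟩ : ∃ g : Aut, g ρ' ≠ ρ' := by
    by_contra hcon
    push Not at hcon
    have hbot : ρ' ∈ (⊥ : GF) := h1 ⊥ ρ' (fun σ _ => hcon σ)
    rw [IntermediateField.mem_bot] at hbot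
    obtain ⟨r, hr⟩ := hbot
    have hrp : r ^ p = (a : ℚ) := by
      apply (algebraMap ℚ Qb).injective
      rw [map_pow, hr, hρ'p, map_natCast]
    have hr0 : r ≠ 0 := by
      rintro rfl
      rw [map_zero] at hr
      exact hρ'0 hr.symm
    obtain ⟨q, hq, hqa⟩ := Nat.exists_prime_and_dvd (show a ≠ 1 by omega)
    haveI : Fact q.Prime := ⟨hq⟩
    have hv : padicValRat q (r ^ p) = padicValRat q (a : ℚ) := by rw [hrp]
    rw [padicValRat.pow, padicValRat.of_nat] at hv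
    have hva : padicValNat q a = 1 := by
      have h1 : padicValNat q a ≤ 1 := by
        by_contra hlt
        push Not at hlt
        have h2 : q ^ 2 ∣ a := (pow_dvd_pow q hlt).trans pow_padicValNat_dvd
        rw [pow_two] at h2
        have := hsq q h2
        exact hq.one_lt.ne' (Nat.isUnit_iff.1 this)
      have h3 : 1 ≤ padicValNat q a := one_le_padicValNat_of_dvd (by omega) hqa
      omega
    rw [hva] at hv
    have h4 : (p : ℤ) ∣ 1 := ⟨_, by rw [hv]; norm_num⟩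
    have h5 : p ∣ 1 := by exact_mod_cast h4
    exact hp.one_lt.ne' (Nat.dvd_one.1 h5)
  apply hg
  set ω : Qb := g ρ' / ρ' with hω
  have hωp : ω ^ p = 1 := by
    rw [hω, div_pow, ← map_pow, hρ'p, map_natCast, div_self ha0]
  have hω0 : ω ≠ 0 := by
    intro h
    rw [h, zero_pow hp.ne_zero] at hωp
    exact zero_ne_one hωp
  have hgρ : g ρ' = ω * ρ' := by rw [hω]; field_simp
  have e1 : c (g ρ') = g ρ' := by rw [comm_Kmu c g hρ'mem, hcρ']
  rw [hgρ, map_mul, hcρ', hc ω p hp.pos hωp] at e1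
  have e2 : ω⁻¹ = ω := mul_right_cancel₀ hρ'0 e1
  have e3 : ω ^ 2 = 1 := by
    rw [pow_two]
    nth_rewrite 1 [← e2]
    exact inv_mul_cancel₀ hω0
  have e4 : ω = 1 := by
    have h5 : ω ^ p = ω := by
      have : p = 2 * (p / 2) + 1 := by omega
      rw [this, pow_succ, pow_mul, e3, one_pow, one_mul]
    rw [← h5, hωp]
  rw [hgρ, e4, one_mul]

end V5helper58.PD
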